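import Mathlib

set_option autoImplicit false
open Filter

namespace Pool.Agent.helper16.Multibrot

/-- The Multibrot set of power `n`: the parameters `c` for which the orbit of `0` under
`z ↦ z ^ n + c` does not tend to infinity. -/
def multibrot (n : ℕ) : Set ℂ :=
  {c | ¬ Tendsto (fun k : ℕ => ‖(fun z : ℂ => z ^ n + c)^[k] 0‖) atTop atTop}

/-- The hyperbolic parameters `H_n`: the parameters `c` for which `z ↦ z ^ n + c` has an
attracting cycle. -/
def hyperbolic (n : ℕ) : Set ℂ :=
  {c | ∃ z : ℂ, ∃ k : ℕ, 0 < k ∧ (fun w : ℂ => w ^ n + c)^[k] z = z ∧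
    ‖deriv ((fun w : ℂ => w ^ n + c)^[k]) z‖ < 1}

/-- The main hyperbolic component: the parameters `c` for which `z ↦ z ^ n + c` has an
attracting fixed point. -/
def mainComponent (n : ℕ) : Set ℂ :=
  {c | ∃ z : ℂ, z ^ n + c = z ∧ ‖deriv (fun w : ℂ => w ^ n + c) z‖ < 1}

end Pool.Agent.helper16.Multibrot
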