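import Mathlib

set_option autoImplicit false
open MeasureTheory Set

namespace Pool.Agent.helper16.Multibrot

lemma cos_gap {x y : ℝ} (hx : 0 ≤ x) (hxy : x ≤ y) (hy : y ≤ Real.pi) :
    2 / Real.pi ^ 2 * (y - x) ^ 2 ≤ Real.cos x - Real.cos y := by
  have hpi := Real.pi_pos
  set d : ℝ := (y - x) / 2 with hd
  set m : ℝ := (x + y) / 2 with hm
  have h1 : Real.cos x - Real.cos y = 2 * Real.sin m * Real.sin d := by
    rw [Real.cos_sub_cos, hm, hd]
    have : (x - y) / 2 = -((y - x) / 2) := by ring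
    rw [this, Real.sin_neg]
    ring
  have hd0 : 0 ≤ d := by rw [hd]; linarith
  have hd1 : d ≤ Real.pi / 2 := by rw [hd]; linarith
  have hsd : 2 / Real.pi * d ≤ Real.sin d := Real.mul_le_sin hd0 hd1
  have hsm : Real.sin d ≤ Real.sin m := by
    rcases le_total m (Real.pi / 2) with h | h
    · exact Real.sin_le_sin_of_le_of_le_pi_div_two (by linarith) h (by rw [hd, hm]; linarith)
    · rw [← Real.sin_pi_sub m]
      exact Real.sin_le_sin_of_le_of_le_pi_div_two (by linarith) (by linarith)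
        (by rw [hd, hm]; linarith)
  have hs0 : 0 ≤ 2 / Real.pi * d := by positivity
  rw [h1]
  calc 2 / Real.pi ^ 2 * (y - x) ^ 2 = 2 * (2 / Real.pi * d) * (2 / Real.pi * d) := by
        rw [hd]; field_simp
    _ ≤ 2 * Real.sin m * Real.sin d := by
        apply mul_le_mul _ hsd hs0
        · linarith
        · linarith

lemma cos_gap_abs {x y s : ℝ} (hx : 0 ≤ x) (hx' : x ≤ Real.pi) (hy0 : 0 ≤ y) (hy : y ≤ Real.pi)
    (hs : |Real.cos x - Real.cos y| ≤ s) : |x - y| ≤ Real.pi * Real.sqrt (s / 2) := by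
  have hpi := Real.pi_pos
  have key : ∀ a b : ℝ, 0 ≤ a → a ≤ b → b ≤ Real.pi → |Real.cos a - Real.cos b| ≤ s →
      b - a ≤ Real.pi * Real.sqrt (s / 2) := by
    intro a b ha hab hb h
    have h1 := cos_gap ha hab hb
    have h2 : (b - a) ^ 2 ≤ Real.pi ^ 2 * (s / 2) := by
      have h3 : 2 / Real.pi ^ 2 * (b - a) ^ 2 ≤ s := h1.trans ((le_abs_self _).trans h)
      have h4 : (b - a) ^ 2 = Real.pi ^ 2 / 2 * (2 / Real.pi ^ 2 * (b - a) ^ 2) := by
        field_simp
      rw [h4]
      calc _ ≤ Real.pi ^ 2 / 2 * s := mul_le_mul_of_nonneg_left h3 (by positivity)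
        _ = _ := by ring
    have h5 : b - a ≤ Real.sqrt (Real.pi ^ 2 * (s / 2)) := Real.le_sqrt_of_sq_le h2
    rwa [Real.sqrt_mul (by positivity), Real.sqrt_sq hpi.le] at h5
  rcases le_total x y with h | h
  · rw [abs_sub_comm, abs_of_nonneg (by linarith)]
    exact key x y hx h hy hs
  · rw [abs_of_nonneg (by linarith)]
    exact key y x hy0 h hx' (by rwa [abs_sub_comm])

lemma volume_angle {N : ℕ} (hN : 1 ≤ N) (α s : ℝ) :
    volume {θ : ℝ | θ ∈ Ioo (-Real.pi) Real.pi ∧ Real.cos (N * θ) ∈ Icc α (α + s)} ≤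
      ENNReal.ofReal (2 * Real.pi * Real.sqrt (s / 2)) := by
  have hpi := Real.pi_pos
  have hN0 : (0 : ℝ) < N := by exact_mod_cast hN
  set τ : ℝ := Real.pi * Real.sqrt (s / 2) with hτ
  have hτ0 : 0 ≤ τ := by positivity
  let P : ℕ → Set ℝ := fun k => {θ : ℝ | (k : ℝ) * Real.pi / N ≤ θ + Real.pi ∧
    θ + Real.pi ≤ ((k : ℝ) + 1) * Real.pi / N ∧ Real.cos (N * θ) ∈ Icc α (α + s)}
  have hcover : {θ : ℝ | θ ∈ Ioo (-Real.pi) Real.pi ∧ Real.cos (N * θ) ∈ Icc α (α + s)} ⊆
      ⋃ k ∈ Finset.range (2 * N), P k := by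
    rintro θ ⟨⟨h1, h2⟩, h3⟩
    have hx0 : 0 < (θ + Real.pi) * N / Real.pi := by
      have : 0 < θ + Real.pi := by linarith
      positivity
    simp only [mem_iUnion, Finset.mem_range]
    refine ⟨⌊(θ + Real.pi) * N / Real.pi⌋₊, ?_, ?_, ?_, h3⟩
    · rw [Nat.floor_lt hx0.le, div_lt_iff₀ hpi]
      push_cast
      nlinarith
    · have := Nat.floor_le hx0.le
      rw [div_le_iff₀ hN0]
      rwa [le_div_iff₀ hpi] at this
    · have := (Nat.lt_floor_add_one ((θ + Real.pi) * N / Real.pi)).le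
      rw [le_div_iff₀ hN0]
      rwa [div_le_iff₀ hpi] at this
  have hpiece : ∀ k, volume (P k) ≤ ENNReal.ofReal (τ / N) := by
    intro k
    refine (Real.volume_le_diam _).trans ?_
    apply Metric.ediam_le
    intro θ hθ θ' hθ'
    obtain ⟨a1, a2, a3, a4⟩ := hθ
    obtain ⟨b1, b2, b3, b4⟩ := hθ'
    rw [edist_dist]
    apply ENNReal.ofReal_le_ofReal
    rw [Real.dist_eq, le_div_iff₀ hN0]
    rw [div_le_iff₀ hN0] at a1 b1
    rw [le_div_iff₀ hN0] at a2 b2
    have e : ∀ t : ℝ, Real.cos (N * t + N * Real.pi - k * Real.pi) =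
        (-1) ^ k * ((-1) ^ N * Real.cos (N * t)) := by
      intro t
      rw [Real.cos_sub_nat_mul_pi, Real.cos_add_nat_mul_pi]
    have hab : |Real.cos (N * θ + N * Real.pi - k * Real.pi) -
        Real.cos (N * θ' + N * Real.pi - k * Real.pi)| ≤ s := by
      rw [e, e, ← mul_sub, ← mul_sub, abs_mul, abs_mul, abs_pow, abs_pow, abs_neg, abs_one,
        one_pow, one_pow, one_mul, one_mul, abs_le]
      constructor <;> linarith
    have h := cos_gap_abs (by linarith) (by linarith) (by linarith) (by linarith) hab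
    have e2 : N * θ + N * Real.pi - k * Real.pi - (N * θ' + N * Real.pi - k * Real.pi) =
        (θ - θ') * N := by ring
    rw [e2, abs_mul, abs_of_pos hN0] at h
    exact h
  calc _ ≤ volume (⋃ k ∈ Finset.range (2 * N), P k) := measure_mono hcover
    _ ≤ ∑ k ∈ Finset.range (2 * N), volume (P k) := measure_biUnion_finset_le _ _
    _ ≤ ∑ _k ∈ Finset.range (2 * N), ENNReal.ofReal (τ / N) := Finset.sum_le_sum fun k _ => hpiece k
    _ = ENNReal.ofReal (2 * Real.pi * Real.sqrt (s / 2)) := by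
        rw [Finset.sum_const, Finset.card_range, nsmul_eq_mul]
        rw [← ENNReal.ofReal_natCast, ← ENNReal.ofReal_mul (by positivity)]
        congr 1
        rw [hτ]
        push_cast
        field_simp

lemma volume_polar {S : Set ℂ} (hS : MeasurableSet S) {a b m : ℝ} (ha : 0 ≤ a) (hab : a ≤ b)
    (hm : 0 ≤ m) (hnorm : ∀ c ∈ S, a < ‖c‖ ∧ ‖c‖ ≤ b)
    (hang : ∀ r : ℝ, a < r → r ≤ b → volume {θ : ℝ | θ ∈ Ioo (-Real.pi) Real.pi ∧
      (r : ℂ) * Complex.exp (θ * Complex.I) ∈ S} ≤ ENNReal.ofReal m) :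
    volume S ≤ ENNReal.ofReal (m * (b ^ 2 - a ^ 2) / 2) := by
  have h1 : volume S = ∫⁻ c : ℂ, S.indicator 1 c := by
    rw [lintegral_indicator_one hS]
  have hexp : ∀ p : ℝ × ℝ, Complex.polarCoord.symm p = (p.1 : ℂ) * Complex.exp (p.2 * Complex.I) := by
    intro p
    rw [Complex.polarCoord_symm_apply, Complex.exp_mul_I]
    push_cast
    rfl
  rw [h1, ← Complex.lintegral_comp_polarCoord_symm]
  have h2 : ∫⁻ p in polarCoord.target, ENNReal.ofReal p.1 • (S.indicator (1 : ℂ → ENNReal))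
      (Complex.polarCoord.symm p) ≤
      ∫⁻ p : ℝ × ℝ, (Ioc a b).indicator (fun r => ENNReal.ofReal r) p.1 *
        ({θ : ℝ | θ ∈ Ioo (-Real.pi) Real.pi ∧
      (p.1 : ℂ) * Complex.exp (θ * Complex.I) ∈ S}.indicator (1 : ℝ → ENNReal)) p.2 := by
    rw [← lintegral_indicator (show MeasurableSet polarCoord.target from
      measurableSet_Ioi.prod measurableSet_Ioo)]
    apply lintegral_mono
    intro p
    by_cases hp : p ∈ polarCoord.target
    · rw [indicator_of_mem hp]
      by_cases hq : Complex.polarCoord.symm p ∈ S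
      · have h3 : p.1 ∈ Ioc a b := by
          have := hnorm _ hq
          rw [Complex.norm_polarCoord_symm, abs_of_pos hp.1] at this
          exact this
        have h4 : p.2 ∈ {θ : ℝ | θ ∈ Ioo (-Real.pi) Real.pi ∧
            (p.1 : ℂ) * Complex.exp (θ * Complex.I) ∈ S} := by
          refine ⟨hp.2, ?_⟩
          rw [← hexp]; exact hq
        simp only
        rw [indicator_of_mem h3, indicator_of_mem h4, indicator_of_mem hq]
        simp
      · rw [indicator_of_notMem hq]; simp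
    · rw [indicator_of_notMem hp]; simp
  refine h2.trans ((lintegral_prod_le _).trans ?_)
  have h5 : ∀ r : ℝ, ∫⁻ θ : ℝ, (Ioc a b).indicator (fun r => ENNReal.ofReal r) r *
        ({θ : ℝ | θ ∈ Ioo (-Real.pi) Real.pi ∧
      (r : ℂ) * Complex.exp (θ * Complex.I) ∈ S}.indicator (1 : ℝ → ENNReal)) θ ≤
      (Ioc a b).indicator (fun r => ENNReal.ofReal (m * r)) r := by
    intro r
    by_cases hr : r ∈ Ioc a b
    · rw [indicator_of_mem hr, indicator_of_mem hr]
      have hmeas : MeasurableSet {θ : ℝ | θ ∈ Ioo (-Real.pi) Real.pi ∧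
          (r : ℂ) * Complex.exp (θ * Complex.I) ∈ S} := by
        apply MeasurableSet.inter measurableSet_Ioo
        exact (by fun_prop : Measurable fun θ : ℝ => (r : ℂ) * Complex.exp (θ * Complex.I)) hS
      rw [lintegral_const_mul _ (measurable_one.indicator hmeas), lintegral_indicator_one hmeas]
      rw [mul_comm m r, ENNReal.ofReal_mul (ha.trans hr.1.le)]
      gcongr
      exact hang r hr.1 hr.2
    · rw [indicator_of_notMem hr, indicator_of_notMem hr]; simp
  refine (lintegral_mono h5).trans ?_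
  rw [lintegral_indicator measurableSet_Ioc, ← ofReal_integral_eq_lintegral_ofReal]
  · rw [← intervalIntegral.integral_of_le hab]
    apply ENNReal.ofReal_le_ofReal
    rw [intervalIntegral.integral_const_mul, integral_id]
    linarith
  · exact (Continuous.integrableOn_Ioc (by fun_prop))
  · filter_upwards [ae_restrict_mem measurableSet_Ioc] with r hr
    exact mul_nonneg hm (ha.trans hr.1.le)

end Pool.Agent.helper16.Multibrot
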