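import Mathlib
import Pool.Agent.lead.MultibrotTwo

set_option autoImplicit false
open Filter

namespace Pool.Agent.helper16.Multibrot

open Pool.Agent.LeadMultibrot

lemma one_add_inv_pow_le (n : ℕ) (hn : 1 ≤ n) : (1 + 1 / (n : ℝ)) ^ (n - 1) ≤ 3 := by
  have hn0 : (0 : ℝ) < n := by exact_mod_cast hn
  have h1 : 1 + 1 / (n : ℝ) ≤ Real.exp (1 / n) := by
    have := Real.add_one_le_exp (1 / (n : ℝ)); linarith
  calc (1 + 1 / (n : ℝ)) ^ (n - 1) ≤ (1 + 1 / (n : ℝ)) ^ n :=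
        pow_le_pow_right₀ (by have : (0 : ℝ) < 1 / n := by positivity
                              linarith) (by omega)
    _ ≤ Real.exp (1 / n) ^ n := pow_le_pow_left₀ (by positivity) h1 n
    _ = Real.exp 1 := by
        rw [← Real.exp_nat_mul]; congr 1; field_simp
    _ ≤ 3 := by linarith [Real.exp_one_lt_d9]

/-- small parameters have an attracting fixed point. -/
lemma main_small {n : ℕ} (hn : 2 ≤ n) {c : ℂ} (hc : ‖c‖ ^ (n - 1) ≤ 1 / (8 * (n : ℝ))) :
    ∃ z : ℂ, z ^ n + c = z ∧ ‖deriv (fun w : ℂ => w ^ n + c) z‖ < 1 := by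
  have hn2 : (2 : ℝ) ≤ n := by exact_mod_cast hn
  have hn0 : (0 : ℝ) < n := by linarith
  set R : ℝ := ‖c‖ * (1 + 1 / n) with hR
  have hR0 : 0 ≤ R := by positivity
  have hRN : R ^ (n - 1) ≤ 3 / (8 * (n : ℝ)) := by
    rw [hR, mul_pow]
    calc ‖c‖ ^ (n - 1) * (1 + 1 / (n : ℝ)) ^ (n - 1) ≤ 1 / (8 * (n : ℝ)) * 3 :=
          mul_le_mul hc (one_add_inv_pow_le n (by omega)) (by positivity) (by positivity)
      _ = _ := by ring
  set K : Set ℂ := Metric.closedBall 0 R with hK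
  have hmem : ∀ w ∈ K, ‖w‖ ≤ R := by intro w hw; simpa [hK] using hw
  have hmaps : Set.MapsTo (fun w : ℂ => w ^ n + c) K K := by
    intro w hw
    simp only [hK, mem_closedBall_zero_iff]
    have h1 : ‖w‖ ≤ R := hmem w hw
    have h2 : ‖w ^ n‖ ≤ R * (3 / (8 * (n : ℝ))) := by
      rw [norm_pow]
      calc ‖w‖ ^ n = ‖w‖ * ‖w‖ ^ (n - 1) := by rw [← pow_succ']; congr 1; omega
        _ ≤ R * (3 / (8 * (n : ℝ))) :=
            mul_le_mul h1 ((pow_le_pow_left₀ (norm_nonneg _) h1 _).trans hRN) (by positivity) hR0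
    calc ‖w ^ n + c‖ ≤ ‖w ^ n‖ + ‖c‖ := norm_add_le _ _
      _ ≤ R * (3 / (8 * (n : ℝ))) + ‖c‖ := by linarith
      _ ≤ R := by
          rw [hR]
          have e : ‖c‖ * (1 + 1 / (n : ℝ)) * (3 / (8 * (n : ℝ))) + ‖c‖ =
            ‖c‖ * (1 + (1 / (n : ℝ)) * ((1 + 1 / (n : ℝ)) * (3 / 8))) := by
            field_simp
            ring
          rw [e]
          apply mul_le_mul_of_nonneg_left _ (norm_nonneg _)
          have h3 : 1 / (n : ℝ) ≤ 1 / 2 := one_div_le_one_div_of_le (by norm_num) hn2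
          have h4 : (0 : ℝ) < 1 / n := by positivity
          have h5 : (1 + 1 / (n : ℝ)) * (3 / 8) ≤ 1 := by linarith
          nlinarith
  have hder : ∀ w ∈ K, HasDerivWithinAt (fun w : ℂ => w ^ n + c) ((n : ℂ) * w ^ (n - 1)) K w :=
    fun w _ => (hasDerivAt_f n c w).hasDerivWithinAt
  have hbound : ∀ w ∈ K, ‖(n : ℂ) * w ^ (n - 1)‖ ≤ 1 / 2 := by
    intro w hw
    rw [norm_mul, norm_pow, Complex.norm_natCast]
    calc (n : ℝ) * ‖w‖ ^ (n - 1) ≤ n * (3 / (8 * (n : ℝ))) :=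
          mul_le_mul_of_nonneg_left ((pow_le_pow_left₀ (norm_nonneg _) (hmem w hw) _).trans hRN) hn0.le
      _ = 3 / 8 := by field_simp
      _ ≤ 1 / 2 := by norm_num
  have hlip : LipschitzOnWith (1 / 2 : NNReal) (fun w : ℂ => w ^ n + c) K := by
    apply Convex.lipschitzOnWith_of_nnnorm_hasDerivWithin_le (convex_closedBall _ _) hder
    intro w hw
    rw [← NNReal.coe_le_coe, coe_nnnorm]
    simpa using hbound w hw
  have hcontr : ContractingWith (1 / 2 : NNReal) (hmaps.restrict (fun w : ℂ => w ^ n + c) K K) := by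
    refine ⟨?_, (hlip.mapsToRestrict hmaps)⟩
    rw [← NNReal.coe_lt_coe]; norm_num
  have h1K : (0 : ℂ) ∈ K := by simp [hK, hR0]
  obtain ⟨w, hwK, hfix, -, -⟩ := hcontr.exists_fixedPoint' Metric.isClosed_closedBall.isComplete
    hmaps h1K (edist_ne_top _ _)
  refine ⟨w, hfix, ?_⟩
  rw [(hasDerivAt_f n c w).deriv]
  linarith [hbound w hwK]

/-- parameters with an attracting fixed point are small. -/
lemma main_bound {n : ℕ} (hn : 2 ≤ n) {c z : ℂ} (hz : z ^ n + c = z)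
    (hd : ‖deriv (fun w : ℂ => w ^ n + c) z‖ < 1) : ‖c‖ ^ (n - 1) < 3 / (n : ℝ) := by
  have hn2 : (2 : ℝ) ≤ n := by exact_mod_cast hn
  have hn0 : (0 : ℝ) < n := by linarith
  rw [(hasDerivAt_f n c z).deriv, norm_mul, norm_pow, Complex.norm_natCast] at hd
  have h1 : ‖z‖ ^ (n - 1) < 1 / n := by
    rw [lt_div_iff₀ hn0]; linarith
  have h2 : ‖c‖ ≤ ‖z‖ * (1 + 1 / n) := by
    have e : c = z - z * z ^ (n - 1) := by
      rw [← pow_succ', show n - 1 + 1 = n by omega]
      linear_combination hz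
    calc ‖c‖ = ‖z - z * z ^ (n - 1)‖ := by rw [← e]
      _ ≤ ‖z‖ + ‖z * z ^ (n - 1)‖ := norm_sub_le _ _
      _ = ‖z‖ * (1 + ‖z‖ ^ (n - 1)) := by rw [norm_mul, norm_pow]; ring
      _ ≤ _ := mul_le_mul_of_nonneg_left (by linarith) (norm_nonneg _)
  have h3 : ‖c‖ ^ (n - 1) ≤ ‖z‖ ^ (n - 1) * (1 + 1 / (n : ℝ)) ^ (n - 1) := by
    rw [← mul_pow]; exact pow_le_pow_left₀ (norm_nonneg _) h2 _
  calc ‖c‖ ^ (n - 1) ≤ ‖z‖ ^ (n - 1) * (1 + 1 / (n : ℝ)) ^ (n - 1) := h3
    _ ≤ ‖z‖ ^ (n - 1) * 3 :=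
        mul_le_mul_of_nonneg_left (one_add_inv_pow_le n (by omega)) (by positivity)
    _ < 1 / n * 3 := by linarith
    _ = _ := by ring

/-- in the region of `region_two` the critical orbit is bounded. -/
lemma region_two_mem {n : ℕ} (hn : 2 ≤ n) {l : ℂ} (hl2 : ‖l‖ ≤ 2)
    (hl : ‖1 + l‖ ≤ 1 - 16 * (Real.log n / n)) {c : ℂ} (hc : c ^ (n - 1) = l) :
    ¬ Tendsto (fun k : ℕ => ‖(fun w : ℂ => w ^ n + c)^[k] 0‖) atTop atTop := by
  have hn2 : (2 : ℝ) ≤ n := by exact_mod_cast hn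
  have hn0 : (0 : ℝ) < n := by linarith
  set L : ℝ := Real.log n / n with hL
  have hlog2 : 0.6931471803 < Real.log 2 := Real.log_two_gt_d9
  have hlogn : Real.log 2 ≤ Real.log n := Real.log_le_log (by norm_num) hn2
  have hlognpos : 0 < Real.log n := by linarith
  have hLpos : 0 < L := div_pos hlognpos hn0
  have hL1 : 16 * L ≤ 1 := by linarith [norm_nonneg (1 + l)]
  have hn11 : (11 : ℝ) ≤ n := by
    rw [hL, ← mul_div_assoc, div_le_one hn0] at hL1
    linarith
  -- radius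
  set r : ℝ := 1 / (n : ℝ) ^ 2 with hr
  have hr0 : 0 < r := by positivity
  have hpow : (1 + r) ^ n ≤ 1 + 2 / n := by
    have h1 : 1 + r ≤ Real.exp r := by linarith [Real.add_one_le_exp r]
    have h2 : (1 + r) ^ n ≤ Real.exp (1 / n) := by
      calc (1 + r) ^ n ≤ Real.exp r ^ n := pow_le_pow_left₀ (by positivity) h1 n
        _ = Real.exp (n * r) := by rw [Real.exp_nat_mul]
        _ = Real.exp (1 / n) := by congr 1; rw [hr]; field_simp
    have h3 : (1 : ℝ) / n ≤ 1 := by rw [div_le_one hn0]; linarith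
    have h4 := Real.abs_exp_sub_one_sub_id_le (x := 1 / n) (by rw [abs_of_pos (by positivity)]; exact h3)
    have h5 := (abs_le.mp h4).2
    have h6 : (1 / (n : ℝ)) ^ 2 ≤ 1 / n := by
      rw [sq]; exact mul_le_of_le_one_right (by positivity) h3
    have h7 : 2 / (n : ℝ) = 1 / n + 1 / n := by ring
    rw [h7]; linarith
  let g : ℂ → ℂ := fun w => 1 + l * w ^ n
  set K : Set ℂ := Metric.closedBall 1 r with hK
  have hwn : ∀ w ∈ K, ‖w‖ ≤ 1 + r := by
    intro w hw
    have : ‖w - 1‖ ≤ r := by simpa [hK, dist_eq_norm] using hw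
    calc ‖w‖ = ‖1 + (w - 1)‖ := by congr 1; ring
      _ ≤ ‖(1 : ℂ)‖ + ‖w - 1‖ := norm_add_le _ _
      _ ≤ _ := by simp; exact this
  have hg1 : ∀ w ∈ K, ‖g w‖ ≤ 1 - 10 * L := by
    intro w hw
    have h1 : ‖w - 1‖ ≤ r := by simpa [hK, dist_eq_norm] using hw
    have h2 : ‖w ^ n - 1‖ ≤ 2 / n := by
      refine (norm_pow_sub_one_le w n).trans ?_
      have : (1 + ‖w - 1‖) ^ n ≤ (1 + r) ^ n := pow_le_pow_left₀ (by positivity) (by linarith) n
      linarith
    have h3 : g w = (1 + l) + l * (w ^ n - 1) := by simp only [g]; ring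
    rw [h3]
    calc _ ≤ ‖1 + l‖ + ‖l * (w ^ n - 1)‖ := norm_add_le _ _
      _ ≤ (1 - 16 * L) + 2 * (2 / n) := by
          apply add_le_add hl
          rw [norm_mul]
          exact mul_le_mul hl2 h2 (norm_nonneg _) (by norm_num)
      _ ≤ 1 - 10 * L := by
          have : 2 * (2 / (n : ℝ)) ≤ 6 * L := by
            rw [hL, ← mul_div_assoc, ← mul_div_assoc]
            apply div_le_div_of_nonneg_right _ hn0.le
            linarith
          linarith
  have hgpow : ∀ w ∈ K, ‖g w‖ ^ (n - 1) ≤ 1 / (n : ℝ) ^ 5 := by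
    intro w hw
    have h1 : ‖g w‖ ≤ Real.exp (-(10 * L)) := by
      have := Real.add_one_le_exp (-(10 * L))
      linarith [hg1 w hw]
    calc ‖g w‖ ^ (n - 1) ≤ Real.exp (-(10 * L)) ^ (n - 1) := pow_le_pow_left₀ (norm_nonneg _) h1 _
      _ = Real.exp (((n - 1 : ℕ) : ℝ) * (-(10 * L))) := by rw [Real.exp_nat_mul]
      _ ≤ Real.exp (-(5 * Real.log n)) := by
          apply Real.exp_le_exp.mpr
          rw [Nat.cast_sub (by omega), Nat.cast_one, hL]
          have h2 : ((n : ℝ) - 1) * (-(10 * (Real.log n / n))) = -(10 * Real.log n) * (((n : ℝ) - 1) / n) := by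
            field_simp
          rw [h2]
          have h3 : (1 : ℝ) / 2 ≤ ((n : ℝ) - 1) / n := by
            rw [div_le_div_iff₀ (by norm_num) hn0]; linarith
          nlinarith
      _ = 1 / (n : ℝ) ^ 5 := by
          rw [Real.exp_neg, one_div]
          congr 1
          rw [show (5 : ℝ) * Real.log n = ((5 : ℕ) : ℝ) * Real.log n by norm_num, Real.exp_nat_mul, Real.exp_log hn0]
  have hn3 : (1331 : ℝ) ≤ (n : ℝ) ^ 3 := by
    calc (1331 : ℝ) = 11 ^ 3 := by norm_num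
      _ ≤ _ := pow_le_pow_left₀ (by norm_num) hn11 3
  have hmaps : Set.MapsTo (g ∘ g) K K := by
    intro w hw
    simp only [hK, Metric.mem_closedBall, dist_eq_norm, Function.comp]
    have h1 : g (g w) - 1 = l * (g w) ^ n := by
      show (1 + l * (g w) ^ n) - 1 = _
      ring
    rw [h1, norm_mul, norm_pow]
    have h2 : ‖g w‖ ≤ 1 := by linarith [hg1 w hw]
    have h3 : ‖g w‖ ^ n ≤ 1 / (n : ℝ) ^ 5 := by
      refine le_trans ?_ (hgpow w hw)
      exact pow_le_pow_of_le_one (norm_nonneg _) h2 (by omega)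
    calc ‖l‖ * ‖g w‖ ^ n ≤ 2 * (1 / (n : ℝ) ^ 5) := mul_le_mul hl2 h3 (by positivity) (by norm_num)
      _ = 1 / (n : ℝ) ^ 2 * (2 / (n : ℝ) ^ 3) := by field_simp
      _ ≤ 1 / (n : ℝ) ^ 2 * 1 := by
          apply mul_le_mul_of_nonneg_left _ (by positivity)
          rw [div_le_one (by positivity)]; linarith
      _ = r := by rw [mul_one]
  have hconj : ∀ x : ℂ, (c * x) ^ n + c = c * g x := by
    intro x
    have : c ^ n = c * c ^ (n - 1) := by rw [← pow_succ']; congr 1; omega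
    rw [mul_pow, this, hc]
    simp only [g]; ring
  have h1K : (1 : ℂ) ∈ K := by simp [hK, hr0.le]
  have horb : ∀ k : ℕ, ∃ w ∈ K, (fun w : ℂ => w ^ n + c)^[2 * k + 1] 0 = c * w := by
    intro k
    induction k with
    | zero => exact ⟨1, h1K, by simp [show n ≠ 0 by omega]⟩
    | succ k ih =>
      obtain ⟨w, hw, he⟩ := ih
      refine ⟨g (g w), hmaps hw, ?_⟩
      rw [show 2 * (k + 1) + 1 = (2 * k + 1) + 1 + 1 by ring, Function.iterate_succ_apply',
        Function.iterate_succ_apply', he]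
      rw [hconj, hconj]
  intro ht
  have h2 : Tendsto (fun k : ℕ => 2 * k + 1) atTop atTop :=
    tendsto_atTop_mono (fun k => by simp only [id]; omega) tendsto_id
  have h3 := ht.comp h2
  obtain ⟨k, hk⟩ := (h3.eventually_gt_atTop (‖c‖ * (1 + r))).exists
  obtain ⟨w, hw, he⟩ := horb k
  simp only [Function.comp] at hk
  rw [he, norm_mul] at hk
  have := mul_le_mul_of_nonneg_left (hwn w hw) (norm_nonneg c)
  linarith

/-- parameters of the multibrot set: the second point of the orbit is not large. -/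
lemma norm_one_add_le {n : ℕ} (hn : 2 ≤ n) {c : ℂ}
    (hc : ¬ Tendsto (fun k : ℕ => ‖(fun z : ℂ => z ^ n + c)^[k] 0‖) atTop atTop)
    (htn : 1 / (n : ℝ) ≤ ‖c‖ ^ (n - 1)) (hL40 : Real.log n / n ≤ 1 / 40) :
    ‖1 + c ^ (n - 1)‖ ≤ 1 + 4 * (Real.log n / n) := by
  have hn2 : (2 : ℝ) ≤ n := by exact_mod_cast hn
  have hn0 : (0 : ℝ) < n := by linarith
  set L : ℝ := Real.log n / n with hL
  have hlog2 : 0.6931471803 < Real.log 2 := Real.log_two_gt_d9
  have hlogn : Real.log 2 ≤ Real.log n := Real.log_le_log (by norm_num) hn2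
  have hlognpos : 0 < Real.log n := by linarith
  have hLpos : 0 < L := div_pos hlognpos hn0
  have hn27 : (27 : ℝ) ≤ n := by
    have h1 : Real.log n ≤ n * (1 / 40) := by
      rw [hL, div_le_iff₀ hn0] at hL40; linarith
    linarith
  have h3 := third_point hn hc htn
  by_contra hcon
  push Not at hcon
  have h5 : Real.exp (2 * L) ≤ 1 + 4 * L := by
    have h6 := Real.abs_exp_sub_one_sub_id_le (x := 2 * L) (by
      rw [abs_of_pos (by positivity)]; linarith)
    have := (abs_le.mp h6).2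
    nlinarith
  have h6 : Real.exp (2 * L) ^ n < ‖1 + c ^ (n - 1)‖ ^ n :=
    pow_lt_pow_left₀ (lt_of_le_of_lt h5 hcon) (Real.exp_pos _).le (by omega)
  rw [← Real.exp_nat_mul] at h6
  have h7 : (n : ℝ) * (2 * L) = ((2 : ℕ) : ℝ) * Real.log n := by rw [hL]; field_simp; norm_num
  rw [h7, Real.exp_nat_mul, Real.exp_log hn0] at h6
  nlinarith

end Pool.Agent.helper16.Multibrot
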