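import Mathlib
import Pool.Agent.helper16.Multibrot.Defs
import Pool.Agent.helper16.Multibrot.Region
import Pool.Agent.helper16.Multibrot.Area

set_option autoImplicit false
open Filter MeasureTheory Set

namespace Pool.Agent.helper16.Multibrot

open Pool.Agent.LeadMultibrot

/-- the `N`-th root of `a > 0`. -/
noncomputable def rad (N : ℕ) (a : ℝ) : ℝ := Real.exp (Real.log a / N)

lemma rad_pow {N : ℕ} (hN : 1 ≤ N) {a : ℝ} (ha : 0 < a) : rad N a ^ N = a := by
  have : (N : ℝ) ≠ 0 := by positivity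
  rw [rad, ← Real.exp_nat_mul, mul_div_cancel₀ _ this, Real.exp_log ha]

lemma rad_pos (N : ℕ) (a : ℝ) : 0 < rad N a := Real.exp_pos _

lemma pow_le_iff {N : ℕ} (hN : 1 ≤ N) {a x : ℝ} (ha : 0 < a) (hx : 0 ≤ x) :
    x ^ N ≤ a ↔ x ≤ rad N a := by
  conv_lhs => rw [← rad_pow hN ha]
  exact pow_le_pow_iff_left₀ hx (rad_pos N a).le (by omega)

lemma lt_pow_iff {N : ℕ} (hN : 1 ≤ N) {a x : ℝ} (ha : 0 < a) (hx : 0 ≤ x) :
    a < x ^ N ↔ rad N a < x := by
  rw [← not_le, ← not_le, pow_le_iff hN ha hx]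

lemma rad_sq (N : ℕ) (a : ℝ) : rad N a ^ 2 = Real.exp (2 * Real.log a / N) := by
  rw [rad, ← Real.exp_nat_mul]; congr 1; push_cast; ring

lemma rad_mono (N : ℕ) {a b : ℝ} (ha : 0 < a) (hab : a ≤ b) : rad N a ≤ rad N b := by
  apply Real.exp_le_exp.mpr
  exact div_le_div_of_nonneg_right (Real.log_le_log ha hab) (by positivity)

/-- `exp x - exp y ≤ exp x * (x - y)`. -/
lemma exp_sub_le (x y : ℝ) : Real.exp x - Real.exp y ≤ Real.exp x * (x - y) := by
  have h := Real.add_one_le_exp (y - x)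
  have e : Real.exp y = Real.exp x * Real.exp (y - x) := by rw [← Real.exp_add]; congr 1; ring
  rw [e]
  nlinarith [Real.exp_pos x]

lemma le_exp_sub (x y : ℝ) : Real.exp y * (x - y) ≤ Real.exp x - Real.exp y := by
  have h := Real.add_one_le_exp (x - y)
  have e : Real.exp x = Real.exp y * Real.exp (x - y) := by rw [← Real.exp_add]; congr 1; ring
  rw [e]
  nlinarith [Real.exp_pos y]

/-- the annulus `a < ‖c‖ ^ N ≤ b`. -/
def annulus (N : ℕ) (a b : ℝ) : Set ℂ := {c | a < ‖c‖ ^ N ∧ ‖c‖ ^ N ≤ b}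

lemma volume_annulus_le {N : ℕ} (hN : 1 ≤ N) {a b : ℝ} (ha : 0 < a) (hab : a ≤ b) :
    volume (annulus N a b) ≤ ENNReal.ofReal (Real.pi * (rad N b ^ 2 - rad N a ^ 2)) := by
  have hb : 0 < b := ha.trans_le hab
  have hmeas : MeasurableSet (annulus N a b) := by
    have hm : Measurable fun c : ℂ => ‖c‖ ^ N := by fun_prop
    exact (measurableSet_lt measurable_const hm).inter (measurableSet_le hm measurable_const)
  have h := volume_polar hmeas (rad_pos N a).le (rad_mono N ha hab)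
    (m := 2 * Real.pi) (by positivity) (fun c hc => ⟨(lt_pow_iff hN ha (norm_nonneg c)).mp hc.1,
      (pow_le_iff hN hb (norm_nonneg c)).mp hc.2⟩) (fun r _ _ => by
      refine (measure_mono (fun θ hθ => hθ.1)).trans ?_
      rw [Real.volume_Ioo]
      exact ENNReal.ofReal_le_ofReal (by linarith))
  refine h.trans (ENNReal.ofReal_le_ofReal (by linarith))

lemma le_volume_annulus {N : ℕ} (hN : 1 ≤ N) {a b : ℝ} (ha : 0 < a) (hab : a ≤ b) :
    ENNReal.ofReal (Real.pi * (rad N b ^ 2 - rad N a ^ 2)) ≤ volume (annulus N a b) := by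
  have hb : 0 < b := ha.trans_le hab
  have e : annulus N a b = Metric.closedBall 0 (rad N b) \ Metric.closedBall 0 (rad N a) := by
    ext c
    simp only [annulus, mem_ofPred_eq, Set.mem_sdiff, mem_closedBall_zero_iff, not_le]
    rw [lt_pow_iff hN ha (norm_nonneg c), pow_le_iff hN hb (norm_nonneg c)]
    tauto
  rw [e]
  refine le_trans ?_ (le_measure_sdiff)
  rw [Complex.volume_closedBall, Complex.volume_closedBall]
  have hpi : ((NNReal.pi : NNReal) : ENNReal) = ENNReal.ofReal Real.pi := by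
    rw [← NNReal.coe_real_pi, ENNReal.ofReal_coe_nnreal]
  rw [hpi, ← ENNReal.ofReal_pow (rad_pos N b).le, ← ENNReal.ofReal_pow (rad_pos N a).le,
    ← ENNReal.ofReal_mul (by positivity), ← ENNReal.ofReal_mul (by positivity),
    ← ENNReal.ofReal_sub _ (by positivity)]
  exact ENNReal.ofReal_le_ofReal (by linarith)

/-- one of three rotations has real part at most `-‖u‖/2`. -/
lemma exists_re_le (u : ℂ) : u.re ≤ -‖u‖ / 2 ∨ ((⟨-1/2, Real.sqrt 3 / 2⟩ : ℂ) * u).re ≤ -‖u‖ / 2 ∨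
    ((⟨-1/2, Real.sqrt 3 / 2⟩ : ℂ) * ((⟨-1/2, Real.sqrt 3 / 2⟩ : ℂ) * u)).re ≤ -‖u‖ / 2 := by
  by_contra hcon
  push Not at hcon
  obtain ⟨h1, h2, h3⟩ := hcon
  simp only [Complex.mul_re, Complex.mul_im] at h2 h3
  have h3s : Real.sqrt 3 * Real.sqrt 3 = 3 := Real.mul_self_sqrt (by norm_num)
  have hu : ‖u‖ * ‖u‖ = u.re * u.re + u.im * u.im := by
    rw [Complex.norm_mul_self_eq_normSq, Complex.normSq_apply]
  set a := u.re
  set b := u.im
  set r := ‖u‖
  set s := Real.sqrt 3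
  have y1 : 0 < a + r / 2 := by linarith
  have y2 : 0 < -a / 2 - s / 2 * b + r / 2 := by linarith
  have y3 : 0 < -a / 2 + s / 2 * b + r / 2 := by nlinarith
  have p := mul_pos y1 y2
  have q := mul_pos y1 y3
  have w := mul_pos y2 y3
  nlinarith

lemma volume_rot {ζ : ℂ} (hζ : ‖ζ‖ = 1) (T : Set ℂ) (hT : MeasurableSet T) :
    volume {c : ℂ | ζ * c ∈ T} = volume T := by
  let z : Circle := ⟨ζ, mem_sphere_zero_iff_norm.mpr hζ⟩
  have h := (rotation z).measurePreserving.measure_preimage hT.nullMeasurableSet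
  exact h

end Pool.Agent.helper16.Multibrot
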