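import Mathlib
import Pool.Agent.helper16.Multibrot.Main

set_option autoImplicit false
open Filter MeasureTheory Set

namespace Pool.Agent.helper16.Multibrot

open Pool.Agent.LeadMultibrot

/-- the region near the circle `|1 + c ^ N| = 1`. -/
def collar (N : ℕ) (δ L : ℝ) : Set ℂ :=
  {c | (δ < ‖c‖ ^ N ∧ ‖c‖ ^ N ≤ 2) ∧ 1 - 16 * L < ‖1 + c ^ N‖ ∧ ‖1 + c ^ N‖ ≤ 1 + 4 * L}

lemma volume_collar {N : ℕ} (hN : 1 ≤ N) {δ L : ℝ} (hδ : 0 < δ) (hδ2 : δ ≤ 2) (hL : 0 < L)
    (hL1 : 16 * L ≤ 1) :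
    volume (collar N δ L) ≤ ENNReal.ofReal
      ((2 * Real.pi * Real.sqrt (20 * L / δ / 2)) * (rad N 2 ^ 2 - rad N δ ^ 2) / 2) := by
  have hmeas : MeasurableSet (collar N δ L) := by
    have hm : Measurable fun c : ℂ => ‖c‖ ^ N := by fun_prop
    have hm2 : Measurable fun c : ℂ => ‖1 + c ^ N‖ := by fun_prop
    exact ((measurableSet_lt measurable_const hm).inter (measurableSet_le hm measurable_const)).inter
      ((measurableSet_lt measurable_const hm2).inter (measurableSet_le hm2 measurable_const))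
  refine volume_polar hmeas (rad_pos N δ).le (rad_mono N hδ hδ2) (by positivity)
    (fun c hc => ⟨(lt_pow_iff hN hδ (norm_nonneg c)).mp hc.1.1,
      (pow_le_iff hN two_pos (norm_nonneg c)).mp hc.1.2⟩) ?_
  intro r hr1 hr2
  have hr0 : 0 < r := (rad_pos N δ).trans hr1
  set ρ : ℝ := r ^ N with hρ
  have hρ0 : 0 < ρ := by positivity
  have hδρ : δ < ρ := (lt_pow_iff hN hδ hr0.le).mpr hr1
  refine (measure_mono ?_).trans (volume_angle hN (((1 - 16 * L) ^ 2 - 1 - ρ ^ 2) / (2 * ρ))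
    (20 * L / δ))
  rintro θ ⟨hθ, hθS⟩
  refine ⟨hθ, ?_⟩
  obtain ⟨-, h1, h2⟩ := hθS
  have hpow : ((r : ℂ) * Complex.exp (θ * Complex.I)) ^ N =
      (ρ : ℂ) * Complex.exp (((N * θ : ℝ) : ℂ) * Complex.I) := by
    rw [mul_pow, ← Complex.exp_nat_mul, hρ]
    push_cast
    ring_nf
  have hsq : ‖1 + ((r : ℂ) * Complex.exp (θ * Complex.I)) ^ N‖ ^ 2 =
      1 + 2 * ρ * Real.cos (N * θ) + ρ ^ 2 := by
    rw [hpow, Complex.sq_norm, Complex.normSq_apply]
    simp only [Complex.add_re, Complex.add_im, Complex.one_re, Complex.one_im, Complex.re_ofReal_mul,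
      Complex.im_ofReal_mul, Complex.exp_ofReal_mul_I_re, Complex.exp_ofReal_mul_I_im]
    have := Real.sin_sq_add_cos_sq (N * θ)
    linear_combination ρ ^ 2 * this
  have h3 : (1 - 16 * L) ^ 2 ≤ 1 + 2 * ρ * Real.cos (N * θ) + ρ ^ 2 := by
    rw [← hsq]; exact pow_le_pow_left₀ (by linarith) h1.le 2
  have h4 : 1 + 2 * ρ * Real.cos (N * θ) + ρ ^ 2 ≤ (1 + 4 * L) ^ 2 := by
    rw [← hsq]; exact pow_le_pow_left₀ (norm_nonneg _) h2 2
  constructor
  · rw [div_le_iff₀ (by positivity)]; linarith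
  · have h5 : Real.cos (N * θ) ≤ ((1 + 4 * L) ^ 2 - 1 - ρ ^ 2) / (2 * ρ) := by
      rw [le_div_iff₀ (by positivity)]; linarith
    refine h5.trans ?_
    have h6 : ((1 + 4 * L) ^ 2 - 1 - ρ ^ 2) / (2 * ρ) = ((1 - 16 * L) ^ 2 - 1 - ρ ^ 2) / (2 * ρ) +
        (40 * L - 240 * L ^ 2) / (2 * ρ) := by
      rw [← add_div]; congr 1; ring
    rw [h6]
    have h7 : (40 * L - 240 * L ^ 2) / (2 * ρ) ≤ 20 * L / δ := by
      rw [div_le_div_iff₀ (by positivity) hδ]
      nlinarith [mul_pos hL hδ, mul_pos hL hρ0, mul_pos (mul_pos hL hL) hδ]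
    linarith

/-- Inclusion of the non-hyperbolic part. -/
lemma nonhyp_subset {n : ℕ} (hn : 2 ≤ n) {δ : ℝ} (hδ : 1 / (n : ℝ) ≤ δ)
    (hL40 : Real.log n / n ≤ 1 / 40) :
    multibrot n \ hyperbolic n ⊆ annulus (n - 1) (1 / (8 * (n : ℝ))) δ ∪
      collar (n - 1) δ (Real.log n / n) := by
  rintro c ⟨hM, hH⟩
  have h1 : 1 / (8 * (n : ℝ)) < ‖c‖ ^ (n - 1) := by
    by_contra hcon
    push Not at hcon
    obtain ⟨z, hz, hd⟩ := main_small hn hcon
    exact hH ⟨z, 1, one_pos, by simpa using hz, by simpa using hd⟩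
  by_cases h2 : ‖c‖ ^ (n - 1) ≤ δ
  · exact Or.inl ⟨h1, h2⟩
  · push Not at h2
    have h3 := norm_pow_le_two hn hM
    refine Or.inr ⟨⟨h2, h3⟩, ?_, ?_⟩
    · by_contra hcon
      push Not at hcon
      exact hH (region_two hn (by rw [norm_pow]; exact h3) hcon rfl)
    · exact norm_one_add_le hn hM (hδ.trans h2.le) hL40

/-- Lower bound for the part of the Multibrot set outside of the main component. -/
lemma le_volume_outside {n : ℕ} (hn : 2 ≤ n) (h3 : 3 / (n : ℝ) ≤ 64 * (Real.log n / n))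
    (h64 : 64 * (Real.log n / n) ≤ 1 / 2) :
    volume (annulus (n - 1) (64 * (Real.log n / n)) (1 / 2)) ≤
      3 * volume (multibrot n \ mainComponent n) := by
  have hn2 : (2 : ℝ) ≤ n := by exact_mod_cast hn
  have hn0 : (0 : ℝ) < n := by linarith
  have hN : 1 ≤ n - 1 := by omega
  set N := n - 1 with hNdef
  set L : ℝ := Real.log n / n with hL
  have hlogn : 0 < Real.log n := Real.log_pos (by linarith)
  have hL0 : 0 < L := by positivity
  set T : Set ℂ := {c | c ∈ annulus N (64 * L) (1 / 2) ∧ (c ^ N).re ≤ -‖c ^ N‖ / 2} with hT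
  have hTmeas : MeasurableSet T := by
    have hm : Measurable fun c : ℂ => ‖c‖ ^ N := by fun_prop
    have hm1 : Measurable fun c : ℂ => (c ^ N).re :=
      Complex.measurable_re.comp (by fun_prop)
    have hm2 : Measurable fun c : ℂ => -‖c ^ N‖ / 2 := by fun_prop
    exact ((measurableSet_lt measurable_const hm).inter (measurableSet_le hm measurable_const)).inter
      (measurableSet_le hm1 hm2)
  have hsub : T ⊆ multibrot n \ mainComponent n := by
    rintro c ⟨⟨h1, h2⟩, hre⟩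
    have hnorm : ‖c ^ N‖ = ‖c‖ ^ N := norm_pow _ _
    have hreg : ‖1 + c ^ N‖ ≤ 1 - 16 * L := by
      apply le_of_sq_le_sq _ (by linarith)
      rw [Complex.sq_norm, Complex.normSq_apply]
      have h4 : ‖c ^ N‖ * ‖c ^ N‖ = (c ^ N).re * (c ^ N).re + (c ^ N).im * (c ^ N).im := by
        rw [Complex.norm_mul_self_eq_normSq, Complex.normSq_apply]
      simp only [Complex.add_re, Complex.add_im, Complex.one_re, Complex.one_im]
      rw [← hnorm] at h1 h2
      nlinarith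
    refine ⟨?_, ?_⟩
    · exact region_two_mem hn (l := c ^ N) (by rw [hnorm]; linarith) hreg rfl
    · rintro ⟨z, hz, hd⟩
      have h5 := main_bound hn hz hd
      rw [← hNdef] at h5
      linarith
  -- rotations
  set ω : ℂ := ⟨-1/2, Real.sqrt 3 / 2⟩ with hω
  have h3s : Real.sqrt 3 * Real.sqrt 3 = 3 := Real.mul_self_sqrt (by norm_num)
  have hωn : ‖ω‖ = 1 := by
    have : ‖ω‖ * ‖ω‖ = 1 := by
      rw [Complex.norm_mul_self_eq_normSq, Complex.normSq_apply, hω]
      simp only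
      nlinarith
    nlinarith [norm_nonneg ω]
  obtain ⟨ζ, hζ⟩ := IsAlgClosed.exists_pow_nat_eq ω (n := N) (by omega)
  have hζn : ‖ζ‖ = 1 := by
    have : ‖ζ‖ ^ N = 1 := by rw [← norm_pow, hζ, hωn]
    exact (pow_eq_one_iff_of_nonneg (norm_nonneg _) (by omega)).mp this
  have hcov : annulus N (64 * L) (1 / 2) ⊆ T ∪ ({c | ζ * c ∈ T} ∪ {c | ζ * c ∈ {c | ζ * c ∈ T}}) := by
    intro c hc
    have hc1 : ζ * c ∈ annulus N (64 * L) (1 / 2) := by
      simp only [annulus, mem_ofPred_eq, norm_mul, hζn, one_mul]; exact hc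
    have hc2 : ζ * (ζ * c) ∈ annulus N (64 * L) (1 / 2) := by
      simp only [annulus, mem_ofPred_eq, norm_mul, hζn, one_mul]; exact hc
    rcases exists_re_le (c ^ N) with h | h | h
    · exact Or.inl ⟨hc, h⟩
    · refine Or.inr (Or.inl ⟨hc1, ?_⟩)
      rw [mul_pow, hζ, norm_mul, hωn, one_mul]; exact h
    · refine Or.inr (Or.inr ⟨hc2, ?_⟩)
      rw [mul_pow, mul_pow, hζ, norm_mul, norm_mul, hωn, one_mul, one_mul]; exact h
  have hT1 : MeasurableSet {c : ℂ | ζ * c ∈ T} :=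
    (by fun_prop : Measurable fun c : ℂ => ζ * c) hTmeas
  calc volume (annulus N (64 * L) (1 / 2)) ≤
        volume (T ∪ ({c | ζ * c ∈ T} ∪ {c | ζ * c ∈ {c | ζ * c ∈ T}})) := measure_mono hcov
    _ ≤ volume T + (volume {c | ζ * c ∈ T} + volume {c | ζ * c ∈ {c | ζ * c ∈ T}}) :=
        (measure_union_le _ _).trans (add_le_add le_rfl (measure_union_le _ _))
    _ = 3 * volume T := by
        rw [volume_rot hζn _ hT1, volume_rot hζn _ hTmeas]
        ring
    _ ≤ _ := by gcongr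

end Pool.Agent.helper16.Multibrot
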