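import Mathlib
import Pool.Agent.helper16.Multibrot.Bounds

set_option autoImplicit false
open Filter MeasureTheory Set

namespace Pool.Agent.helper16.Multibrot

open Pool.Agent.LeadMultibrot

lemma log_two_bounds : 0.693147 < Real.log 2 ∧ Real.log 2 < 0.693148 := by
  have h1 := Real.log_two_gt_d9
  have h2 := Real.log_two_lt_d9
  constructor <;> linarith

/-- numerical facts for `n ≥ 10 ^ 7`. -/
lemma facts {n : ℕ} (hn : 10 ^ 7 ≤ n) :
    16 ≤ Real.log n ∧ Real.log n ^ 3 ≤ n ∧ 4 * Real.log 2 ≤ Real.log (Real.log n) ∧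
    Real.log (Real.log n) ≤ Real.log n / 2 - 7 * Real.log 2 ∧
    0.99 * (n : ℝ) ≤ ((n - 1 : ℕ) : ℝ) := by
  obtain ⟨hl1, hl2⟩ := log_two_bounds
  have hnR : (10 : ℝ) ^ 7 ≤ n := by exact_mod_cast hn
  have hn0 : (0 : ℝ) < n := by linarith
  have h16 : 16 ≤ Real.log n := by
    have h1 : Real.exp 16 ≤ n := by
      have h2 : Real.exp 16 = Real.exp 1 ^ 16 := by
        rw [← Real.exp_nat_mul]; norm_num
      rw [h2]
      calc Real.exp 1 ^ 16 ≤ (2.7182818286 : ℝ) ^ 16 :=
            pow_le_pow_left₀ (Real.exp_pos _).le Real.exp_one_lt_d9.le 16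
        _ ≤ 10 ^ 7 := by norm_num
        _ ≤ n := hnR
    rw [Real.le_log_iff_exp_le hn0]; exact h1
  set ℓ := Real.log n with hℓ
  have hℓ0 : 0 < ℓ := by linarith
  refine ⟨h16, ?_, ?_, ?_, ?_⟩
  · have h1 := Real.quadratic_le_exp_of_nonneg (x := ℓ / 3) (by linarith)
    have h2 : ℓ ≤ Real.exp (ℓ / 3) := by nlinarith
    calc ℓ ^ 3 ≤ Real.exp (ℓ / 3) ^ 3 := pow_le_pow_left₀ hℓ0.le h2 3
      _ = Real.exp ℓ := by rw [← Real.exp_nat_mul]; congr 1; push_cast; ring
      _ = n := by rw [hℓ, Real.exp_log hn0]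
  · have h1 : Real.log 16 ≤ Real.log ℓ := Real.log_le_log (by norm_num) h16
    have h2 : Real.log 16 = 4 * Real.log 2 := by
      rw [show (16 : ℝ) = 2 ^ 4 by norm_num, Real.log_pow]; norm_num
    linarith
  · have h1 : Real.log (ℓ / 16) ≤ ℓ / 16 - 1 := Real.log_le_sub_one_of_pos (by positivity)
    have h2 : Real.log (ℓ / 16) = Real.log ℓ - 4 * Real.log 2 := by
      rw [Real.log_div (by positivity) (by norm_num), show (16 : ℝ) = 2 ^ 4 by norm_num, Real.log_pow]
      norm_num
    rw [h2] at h1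
    linarith
  · rw [Nat.cast_sub (by omega), Nat.cast_one]; linarith

lemma volume_nonhyp_le {n : ℕ} (hn : 10 ^ 7 ≤ n) :
    volume (multibrot n \ hyperbolic n) ≤ ENNReal.ofReal (32 * Real.log (Real.log n) / n) := by
  obtain ⟨h16, h3, hll, -, hN99⟩ := facts hn
  obtain ⟨hl1, hl2⟩ := log_two_bounds
  have hnR : (10 : ℝ) ^ 7 ≤ n := by exact_mod_cast hn
  have hn0 : (0 : ℝ) < n := by linarith
  have hn2 : 2 ≤ n := by omega
  set ℓ := Real.log n with hℓ
  set m := Real.log ℓ with hm
  have hℓ0 : 0 < ℓ := by linarith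
  have hN : 1 ≤ n - 1 := by omega
  set N := n - 1 with hNdef
  have hNR : (0 : ℝ) < N := by exact_mod_cast hN
  have hpi1 := Real.pi_gt_d4
  have hpi2 := Real.pi_lt_d4
  set δ : ℝ := ℓ ^ 3 / n with hδ
  have hδ0 : 0 < δ := by positivity
  have hδ1 : δ ≤ 1 := by rw [hδ, div_le_one hn0]; exact h3
  have hnδ : 1 / (n : ℝ) ≤ δ := by
    rw [hδ]; apply div_le_div_of_nonneg_right _ hn0.le
    calc (1 : ℝ) ≤ 16 ^ 3 := by norm_num
      _ ≤ ℓ ^ 3 := pow_le_pow_left₀ (by norm_num) h16 3
  have hL40 : ℓ / n ≤ 1 / 40 := by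
    rw [div_le_div_iff₀ hn0 (by norm_num)]
    nlinarith [mul_pos hℓ0 hℓ0]
  have hLpos : 0 < ℓ / n := by positivity
  have hlogδ : Real.log δ = 3 * m - ℓ := by
    rw [hδ, Real.log_div (by positivity) (by positivity), Real.log_pow, ← hm, ← hℓ]; norm_num
  have hlog8 : Real.log (1 / (8 * (n : ℝ))) = -(3 * Real.log 2) - ℓ := by
    rw [one_div, Real.log_inv, Real.log_mul (by norm_num) (by positivity),
      show (8 : ℝ) = 2 ^ 3 by norm_num, Real.log_pow]
    push_cast; ring
  -- first part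
  have hA : volume (annulus N (1 / (8 * (n : ℝ))) δ) ≤ ENNReal.ofReal (24 * m / n) := by
    have hle : 1 / (8 * (n : ℝ)) ≤ δ := by
      refine le_trans ?_ hnδ
      apply one_div_le_one_div_of_le hn0; linarith
    refine (volume_annulus_le hN (by positivity) hle).trans (ENNReal.ofReal_le_ofReal ?_)
    have h1 := exp_sub_le (2 * Real.log δ / N) (2 * Real.log (1 / (8 * (n : ℝ))) / N)
    rw [rad_sq, rad_sq]
    have h2 : Real.exp (2 * Real.log δ / N) ≤ 1 := by
      rw [Real.exp_le_one_iff]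
      apply div_nonpos_of_nonpos_of_nonneg _ hNR.le
      have := Real.log_nonpos hδ0.le hδ1
      linarith
    have h4 : 2 * Real.log δ / N - 2 * Real.log (1 / (8 * (n : ℝ))) / N =
        6 * (m + Real.log 2) / N := by
      rw [hlogδ, hlog8, ← sub_div]; congr 1; ring
    rw [h4] at h1
    have h5 : 0 ≤ 6 * (m + Real.log 2) / N := by
      apply div_nonneg _ hNR.le; linarith
    have h6 : Real.exp (2 * Real.log δ / N) - Real.exp (2 * Real.log (1 / (8 * (n : ℝ))) / N) ≤
        6 * (m + Real.log 2) / N :=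
      h1.trans (mul_le_of_le_one_left h5 h2)
    have h7 : 6 * (m + Real.log 2) / N ≤ 7.6 * m / n := by
      rw [div_le_div_iff₀ hNR hn0]
      have h8 : 6 * (m + Real.log 2) ≤ 7.5 * m := by linarith
      calc 6 * (m + Real.log 2) * n ≤ 7.5 * m * n := mul_le_mul_of_nonneg_right h8 hn0.le
        _ ≤ 7.6 * m * (0.99 * n) := by
            have : 0 ≤ m * n := by apply mul_nonneg _ hn0.le; linarith
            nlinarith
        _ ≤ 7.6 * m * N := mul_le_mul_of_nonneg_left hN99 (by linarith)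
    calc Real.pi * (Real.exp (2 * Real.log δ / N) - Real.exp (2 * Real.log (1 / (8 * (n : ℝ))) / N))
        ≤ Real.pi * (7.6 * m / n) := mul_le_mul_of_nonneg_left (h6.trans h7) (by linarith)
      _ ≤ 3.1416 * (7.6 * m / n) := by
          apply mul_le_mul_of_nonneg_right hpi2.le
          apply div_nonneg _ hn0.le; linarith
      _ = 23.87616 * m / n := by ring
      _ ≤ 24 * m / n := by
          apply div_le_div_of_nonneg_right _ hn0.le; linarith
  -- second part
  have hB : volume (collar N δ (ℓ / n)) ≤ ENNReal.ofReal (8 * m / n) := by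
    refine (volume_collar hN hδ0 (by linarith) hLpos (by linarith)).trans
      (ENNReal.ofReal_le_ofReal ?_)
    have e1 : 20 * (ℓ / n) / δ / 2 = 10 / ℓ ^ 2 := by
      rw [hδ]; field_simp; norm_num
    have e2 : Real.sqrt (20 * (ℓ / n) / δ / 2) ≤ 3.17 / ℓ := by
      rw [e1, Real.sqrt_le_left (by positivity), div_pow]
      apply div_le_div_of_nonneg_right _ (by positivity)
      norm_num
    have h1 := exp_sub_le (2 * Real.log 2 / N) (2 * Real.log δ / N)
    rw [rad_sq, rad_sq]
    have h2 : Real.exp (2 * Real.log 2 / N) ≤ 1.01 := by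
      have h3 : 2 * Real.log 2 / N ≤ 0.001 := by
        rw [div_le_iff₀ hNR]; linarith
      have h4 := Real.abs_exp_sub_one_sub_id_le (x := 2 * Real.log 2 / N) (by
        rw [abs_of_nonneg (by positivity)]; linarith)
      have h5 := (abs_le.mp h4).2
      have h6 : 0 ≤ 2 * Real.log 2 / N := by positivity
      nlinarith
    have h4 : 2 * Real.log 2 / N - 2 * Real.log δ / N ≤ 2 * ℓ / N := by
      rw [hlogδ, ← sub_div]
      apply div_le_div_of_nonneg_right _ hNR.le
      linarith
    have h5 : Real.exp (2 * Real.log 2 / N) - Real.exp (2 * Real.log δ / N) ≤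
        1.01 * (2 * ℓ / N) := by
      refine h1.trans ?_
      exact (mul_le_mul_of_nonneg_left h4 (Real.exp_pos _).le).trans
        (mul_le_mul_of_nonneg_right h2 (by positivity))
    have h6 : 2 * ℓ / N ≤ 2.021 * ℓ / n := by
      rw [div_le_div_iff₀ hNR hn0]
      calc 2 * ℓ * n ≤ 2.021 * ℓ * (0.99 * n) := by
            have : 0 ≤ ℓ * n := by positivity
            nlinarith
        _ ≤ _ := mul_le_mul_of_nonneg_left hN99 (by positivity)
    have h7 : 0 ≤ Real.exp (2 * Real.log 2 / N) - Real.exp (2 * Real.log δ / N) := by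
      rw [sub_nonneg]
      apply Real.exp_le_exp.mpr
      apply div_le_div_of_nonneg_right _ hNR.le
      have := Real.log_nonpos hδ0.le hδ1
      linarith
    calc (2 * Real.pi * Real.sqrt (20 * (ℓ / n) / δ / 2)) *
          (Real.exp (2 * Real.log 2 / N) - Real.exp (2 * Real.log δ / N)) / 2
        ≤ (2 * 3.1416 * (3.17 / ℓ)) * (1.01 * (2.021 * ℓ / n)) / 2 := by
          apply div_le_div_of_nonneg_right _ (by norm_num)
          apply mul_le_mul _ (h5.trans (mul_le_mul_of_nonneg_left h6 (by norm_num))) h7 (by positivity)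
          apply mul_le_mul _ e2 (Real.sqrt_nonneg _) (by norm_num)
          linarith
      _ = (3.1416 * 3.17 * 1.01 * 2.021) / n := by field_simp
      _ ≤ 8 * m / n := by
          apply div_le_div_of_nonneg_right _ hn0.le
          nlinarith
  calc volume (multibrot n \ hyperbolic n) ≤ volume (annulus N (1 / (8 * (n : ℝ))) δ ∪
        collar N δ (ℓ / n)) := measure_mono (nonhyp_subset hn2 hnδ hL40)
    _ ≤ volume (annulus N (1 / (8 * (n : ℝ))) δ) + volume (collar N δ (ℓ / n)) :=
        measure_union_le _ _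
    _ ≤ ENNReal.ofReal (24 * m / n) + ENNReal.ofReal (8 * m / n) := add_le_add hA hB
    _ = ENNReal.ofReal (32 * m / n) := by
        rw [← ENNReal.ofReal_add (div_nonneg (by linarith) hn0.le) (div_nonneg (by linarith) hn0.le)]
        congr 1; ring

lemma le_volume_outside' {n : ℕ} (hn : 10 ^ 7 ≤ n) :
    ENNReal.ofReal (Real.log n / n) ≤ volume (multibrot n \ mainComponent n) := by
  obtain ⟨h16, h3, hll, hlu, hN99⟩ := facts hn
  obtain ⟨hl1, hl2⟩ := log_two_bounds
  have hnR : (10 : ℝ) ^ 7 ≤ n := by exact_mod_cast hn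
  have hn0 : (0 : ℝ) < n := by linarith
  have hn2 : 2 ≤ n := by omega
  set ℓ := Real.log n with hℓ
  set m := Real.log ℓ with hm
  have hℓ0 : 0 < ℓ := by linarith
  have hN : 1 ≤ n - 1 := by omega
  set N := n - 1 with hNdef
  have hNR : (0 : ℝ) < N := by exact_mod_cast hN
  have hpi1 := Real.pi_gt_d4
  have hℓn : 256 * ℓ ≤ n := by nlinarith [mul_pos hℓ0 hℓ0]
  have h64 : 64 * (ℓ / n) ≤ 1 / 2 := by
    rw [← mul_div_assoc, div_le_div_iff₀ hn0 (by norm_num)]; linarith
  have h3L : 3 / (n : ℝ) ≤ 64 * (ℓ / n) := by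
    rw [← mul_div_assoc]
    apply div_le_div_of_nonneg_right _ hn0.le; linarith
  have hpos : 0 < 64 * (ℓ / n) := by positivity
  have h1 := le_volume_outside hn2 h3L h64
  have h2 := (le_volume_annulus hN hpos h64).trans h1
  have hlog : Real.log (64 * (ℓ / n)) = 6 * Real.log 2 + m - ℓ := by
    rw [Real.log_mul (by norm_num) (by positivity), Real.log_div (by positivity) (by positivity),
      show (64 : ℝ) = 2 ^ 6 by norm_num, Real.log_pow]
    push_cast; ring
  have hlogh : Real.log (1 / 2) = -Real.log 2 := by rw [one_div, Real.log_inv]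
  have h4 := le_exp_sub (2 * Real.log (1 / 2) / N) (2 * Real.log (64 * (ℓ / n)) / N)
  rw [← rad_sq, ← rad_sq] at h4
  have h5 : ℓ / N ≤ 2 * Real.log (1 / 2) / N - 2 * Real.log (64 * (ℓ / n)) / N := by
    rw [hlog, hlogh, ← sub_div]
    apply div_le_div_of_nonneg_right _ hNR.le
    linarith
  have h6 : 0.99 ≤ rad N (64 * (ℓ / n)) ^ 2 := by
    rw [rad_sq, hlog]
    have h7 := Real.add_one_le_exp (2 * (6 * Real.log 2 + m - ℓ) / N)
    have h8 : -0.01 ≤ 2 * (6 * Real.log 2 + m - ℓ) / N := by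
      rw [le_div_iff₀ hNR]
      have h9 : 200 * ℓ ≤ 0.99 * n := by nlinarith
      linarith
    linarith
  have h7 : 3 * (ℓ / n) ≤ Real.pi * (rad N (1 / 2) ^ 2 - rad N (64 * (ℓ / n)) ^ 2) := by
    have h8 : 0.99 * (ℓ / N) ≤ rad N (1 / 2) ^ 2 - rad N (64 * (ℓ / n)) ^ 2 := by
      refine le_trans ?_ h4
      exact mul_le_mul h6 h5 (by positivity) (by positivity)
    have h9 : ℓ / n ≤ ℓ / N := by
      apply div_le_div_of_nonneg_left hℓ0.le hNR
      rw [hNdef]; exact_mod_cast Nat.sub_le n 1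
    have h10 : 0 < ℓ / n := by positivity
    calc 3 * (ℓ / n) ≤ 3.1415 * (0.99 * (ℓ / N)) := by nlinarith
      _ ≤ Real.pi * (rad N (1 / 2) ^ 2 - rad N (64 * (ℓ / n)) ^ 2) :=
          mul_le_mul hpi1.le h8 (by positivity) (by linarith)
  have h8 := (ENNReal.ofReal_le_ofReal h7).trans h2
  rw [ENNReal.ofReal_mul (by norm_num)] at h8
  have h9 : ENNReal.ofReal 3 = 3 := by norm_num
  rw [h9] at h8
  exact (ENNReal.mul_le_mul_iff_right (by norm_num) (by norm_num)).mp h8

lemma volume_ratio {n : ℕ} (hn : 10 ^ 7 ≤ n) :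
    volume (multibrot n \ hyperbolic n) ≤
      ENNReal.ofReal (32 * Real.log (Real.log n) / Real.log n) *
        volume (multibrot n \ mainComponent n) := by
  obtain ⟨h16, h3, hll, hlu, hN99⟩ := facts hn
  obtain ⟨hl1, hl2⟩ := log_two_bounds
  have hnR : (10 : ℝ) ^ 7 ≤ n := by exact_mod_cast hn
  have hn0 : (0 : ℝ) < n := by linarith
  refine (volume_nonhyp_le hn).trans ?_
  refine le_trans ?_ (mul_le_mul_right (le_volume_outside' hn) _)
  rw [← ENNReal.ofReal_mul (div_nonneg (by linarith) (by linarith))]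
  apply ENNReal.ofReal_le_ofReal
  apply le_of_eq
  have : Real.log n ≠ 0 := by linarith
  field_simp

lemma ratio_tendsto : Tendsto (fun n : ℕ => volume (multibrot n \ hyperbolic n) /
    volume (multibrot n \ mainComponent n)) atTop (nhds 0) := by
  have h1 : Tendsto (fun n : ℕ => ENNReal.ofReal (32 * Real.log (Real.log n) / Real.log n)) atTop
      (nhds 0) := by
    rw [← ENNReal.ofReal_zero]
    apply ENNReal.tendsto_ofReal
    have h2 : Tendsto (fun x : ℝ => 32 * (Real.log x / x)) atTop (nhds 0) := by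
      have h4 : Tendsto (fun x : ℝ => Real.log x / x) atTop (nhds 0) :=
        Real.isLittleO_log_id_atTop.tendsto_div_nhds_zero
      simpa using h4.const_mul 32
    have h3 := h2.comp (Real.tendsto_log_atTop.comp (tendsto_natCast_atTop_atTop (R := ℝ)))
    refine h3.congr (fun n => ?_)
    simp only [Function.comp]
    ring
  refine tendsto_of_tendsto_of_tendsto_of_le_of_le' tendsto_const_nhds h1
    (Eventually.of_forall fun _ => zero_le) ?_
  filter_upwards [eventually_ge_atTop (10 ^ 7)] with n hn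
  exact ENNReal.div_le_of_le_mul (volume_ratio hn)

end Pool.Agent.helper16.Multibrot
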